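import Pool.Agent.Lib.MP_32fd1f_co.MainA2
import Pool.Agent.Lib.MP_32fd1f_co.Walk
import Pool.Agent.Lib.MP_32fd1f_co.Bridge

set_option autoImplicit false

namespace Pool.Agent.Results.MP_32fd1f_co.LadderBound

open Pool.Agent.CDC36

/-- Every cubic graph on `n` vertices that stays connected after deleting any vertex has a cycle
double cover with `k` cycles, `288 k ≤ 143 n + w + 582`, where `w` is the number of vertices
that lie on a ladder with four rungs. -/
theorem result :
  ∀ (V : Type) [Fintype V] [DecidableEq V] (G : SimpleGraph V) [DecidableRel G.Adj],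
    (∀ v : V, G.degree v = 3) →
    (∀ v : V, (G.induce {w : V | w ≠ v}).Connected) →
    ∃ k : ℕ, 288 * k ≤ 143 * Fintype.card V +
        {v : V | ∃ p : Fin 4 × Fin 2 → V, Function.Injective p ∧
          (∀ i : Fin 4, G.Adj (p (i, 0)) (p (i, 1))) ∧
          (∀ (i : Fin 3) (j : Fin 2), G.Adj (p (i.castSucc, j)) (p (i.succ, j))) ∧
          v ∈ Set.range p}.ncard + 582 ∧
      ∃ u : Fin k → V, ∃ c : (i : Fin k) → G.Walk (u i) (u i),
        (∀ i, (c i).IsCycle) ∧
        ∀ e ∈ G.edgeSet,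
          (Finset.univ.filter (fun i : Fin k => e ∈ (c i).edges)).card = 2 := by
  intro V _ _ G _ h h2
  classical
  obtain ⟨hc, hs⟩ := bridge0 G h
  set S : Set V := {v : V | ∃ p : Fin 4 × Fin 2 → V, Function.Injective p ∧
          (∀ i : Fin 4, G.Adj (p (i, 0)) (p (i, 1))) ∧
          (∀ (i : Fin 3) (j : Fin 2), G.Adj (p (i.castSucc, j)) (p (i.succ, j))) ∧
          v ∈ Set.range p} with hS
  have hL : LadIn G.edgeFinset S.toFinset := by
    intro w w' x x' u u' y y' hl v hv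
    obtain ⟨hn, e1, e2, e3, e4, e5, e6, e7, e8, e9, e10⟩ := hl
    simp only [SimpleGraph.mem_edgeFinset, SimpleGraph.mem_edgeSet] at e1 e2 e3 e4 e5 e6 e7 e8 e9 e10
    rw [Set.mem_toFinset]
    refine ⟨fun q => ![![w, w'], ![x, x'], ![u, u'], ![y, y']] q.1 q.2, ?_, ?_, ?_, ?_⟩
    · simp only [List.nodup_cons, List.mem_cons, List.not_mem_nil, or_false, not_or,
        List.nodup_nil, and_true, not_false_eq_true] at hn
      rintro ⟨i, j⟩ ⟨i', j'⟩ hq
      fin_cases i <;> fin_cases j <;> fin_cases i' <;> fin_cases j' <;>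
        first | rfl | (exfalso; simp at hq; tauto)
    · intro i
      fin_cases i <;> simpa
    · intro i j
      fin_cases i <;> fin_cases j <;> simpa
    · simp only [List.mem_cons, List.not_mem_nil, or_false] at hv
      rcases hv with rfl | rfl | rfl | rfl | rfl | rfl | rfl | rfl
      exacts [⟨(0, 0), rfl⟩, ⟨(0, 1), rfl⟩, ⟨(1, 0), rfl⟩, ⟨(1, 1), rfl⟩, ⟨(2, 0), rfl⟩,
        ⟨(2, 1), rfl⟩, ⟨(3, 0), rfl⟩, ⟨(3, 1), rfl⟩]
  obtain ⟨M, hM, hk⟩ := mainA2 hc (bridge2 G h h2) hL
  rw [hs, Finset.card_univ, ← Set.ncard_eq_toFinset_card'] at hk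
  exact ⟨M.card, hk, out G hM⟩

end Pool.Agent.Results.MP_32fd1f_co.LadderBound
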