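import Pool.Agent.Lib.MP_32fd1f_co.MainB2
import Pool.Agent.Lib.MP_32fd1f_co.Walk
import Pool.Agent.Lib.MP_32fd1f_co.Bridge

set_option autoImplicit false

namespace Pool.Agent.Results.MP_32fd1f_co.ThreeConnected

open Pool.Agent.CDC36

/-- Every cubic graph on `n` vertices that stays connected after deleting any two vertices has a
cycle double cover with `k` cycles, `288 k ≤ 143 n + 590`. -/
theorem result :
  ∀ (V : Type) [Fintype V] [DecidableEq V] (G : SimpleGraph V) [DecidableRel G.Adj],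
    (∀ v : V, G.degree v = 3) →
    (∀ u v : V, (G.induce {w : V | w ≠ u ∧ w ≠ v}).Connected) →
    ∃ k : ℕ, 288 * k ≤ 143 * Fintype.card V + 590 ∧
      ∃ u : Fin k → V, ∃ c : (i : Fin k) → G.Walk (u i) (u i),
        (∀ i, (c i).IsCycle) ∧
        ∀ e ∈ G.edgeSet,
          (Finset.univ.filter (fun i : Fin k => e ∈ (c i).edges)).card = 2 := by
  intro V _ _ G _ h h3
  obtain ⟨hc, hs⟩ := bridge0 G h
  obtain ⟨M, hM, hk⟩ := mainB2 hc (bridge3 G h h3)
  rw [hs, Finset.card_univ] at hk
  exact ⟨M.card, hk, out G hM⟩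

end Pool.Agent.Results.MP_32fd1f_co.ThreeConnected
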